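import Mathlib
import Pool.Agent.Q182.WPDefs
import Pool.Agent.Q182.WPProof

/-!
# Weakly pseudocompact neighbourhoods in subgroups of locally compact groups

If a subgroup `G` of a locally compact group has an open neighbourhood of the identity whose
closure in `G` is weakly pseudocompact, then `G` has an open neighbourhood of the identity whose
closure in `G` is pseudocompact.
-/

namespace Pool.Agent.Results.MP_f8a8cb_gt.LocallyPseudocompact

open Q182

universe u

theorem result {H : Type u} [Group H] [TopologicalSpace H] [IsTopologicalGroup H]
    [LocallyCompactSpace H] [T2Space H] (G : Subgroup H)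
    (h : ∃ U : Set G, IsOpen U ∧ (1 : G) ∈ U ∧ IsWeaklyPseudocompact (closure U)) :
    ∃ V : Set G, IsOpen V ∧ (1 : G) ∈ V ∧ IsPseudocompact (closure V) :=
  WP.main h

end Pool.Agent.Results.MP_f8a8cb_gt.LocallyPseudocompact
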